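import Pool.Agent.X324.CF.Plus2

set_option autoImplicit false

/-!
# The nef cone conjecture for pairs on quotients of products `A × F`

`A = V / Λ` is an abelian variety and `F` a normal projective variety, `ℚ`-factorial with free class
group, whose nef cone is spanned by finitely many semiample classes. Let `X = (A × F) / G`, where a
finite group `G` acts diagonally; the action may have fixed points and fixed divisors. Let `Δ` be an
effective divisor on `X` with real coefficients such that `K_X + Δ` is numerically trivial. (Only the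
curves of `X` which come from curves `C × {point}` in `A × F` are needed for this hypothesis.) The
theorem says that the cone `Nef^e(X)` of nef and effective classes has a rational polyhedral
fundamental domain for the action of `Aut(X, Δ)`, that it is the convex hull `Nef^+(X)` of the rational
nef classes, and that its faces form finitely many orbits.

The proof: `N^1(X)` is the product of a space of hermitian forms on `V` and of the space of invariant
classes of `F`. The first factor is treated by reduction theory (Voronoi's theory of perfect forms for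
an order in a real algebra with a positive involution). The units in a subgroup of finite index of the
group of units extend to affine transformations `f` of `V` such that `(f, id)` normalises `Γ`. These
automorphisms move points only in directions parallel to all mirrors, in which the Chern form of `K_X`
vanishes, hence also the Chern forms of the components of `Δ`, so that these are preserved. The
effective part of the nef cone is shown to be spanned by its integral classes, and then a Dirichlet
domain of a rational linear form with trivial stabiliser is a fundamental domain.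

`Cl`, `IsNefPolyhedral`, `Grp`, `IsQuotient`, `Sheaf`, `EffDiv`, `EffDiv.Fixed`, `NumTrivial`,
`Normalizes`, `N1`, `integral`, `effective`, `semiample`, `nefCone`, `effCone` and `IsPullback` are
defined in `Pool.Agent.X324.CF.Defs`; `IsTorusQuotient` in `Pool.Agent.W594.SYZ.Defs2`;
`IsPositiveForm` in `Pool.Agent.W594.SYZ.TQDefs`; `LinGrp`, `Preserves`, `IsFundDomain` in
`Pool.Agent.Y167.Stm`; `cone` in `Pool.Agent.Y167.ConeDef`; `IsFace` in `Pool.Agent.Y167.StmFace`.
-/

namespace Pool.Agent.Results.MP_9f99c5_ag.ProductPairs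

open Pool.Agent.W594.SYZ2 Pool.Agent.TH735.AQ Pool.Agent.X324.CF
open Pool.Agent.Y167 (cone IsFace)
open Pool.Agent.Y167.CC (LinGrp Preserves IsFundDomain)

/-- The space `N^1(X)`. (In the absolute case the linear subspace `E` of `V` of the general
definitions is `V` itself, embedded by the identity map.) -/
abbrev NS {V R : Type*} [NormedAddCommGroup V] [NormedSpace ℂ V] [CommRing R] [Algebra ℂ R] {ρ : ℕ}
    (𝒜 : Cl ρ → Submodule ℂ R) (Γ : Grp V R) : Type _ :=
  N1 𝒜 Γ (LinearMap.id : V →ₗ[ℂ] V)

/-- The nef cone of `X`. -/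
def nef {V R : Type*} [NormedAddCommGroup V] [NormedSpace ℂ V] [CommRing R] [Algebra ℂ R] {ρ : ℕ}
    (𝒜 : Cl ρ → Submodule ℂ R) (Γ : Grp V R) (u : Cl ρ) : Set (NS 𝒜 Γ) :=
  nefCone 𝒜 Γ LinearMap.id u

/-- The cone `Nef^e(X)` of nef and effective classes. -/
def nefEff {V R : Type*} [NormedAddCommGroup V] [NormedSpace ℂ V] [CommRing R] [Algebra ℂ R] {ρ : ℕ}
    (𝒜 : Cl ρ → Submodule ℂ R) (Γ : Grp V R) (u : Cl ρ) : Set (NS 𝒜 Γ) :=
  nef 𝒜 Γ u ∩ effCone 𝒜 Γ LinearMap.id

/-- The rational classes: those which have a positive integral multiple. -/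
def rational {V R : Type*} [NormedAddCommGroup V] [NormedSpace ℂ V] [CommRing R] [Algebra ℂ R]
    {ρ : ℕ} (𝒜 : Cl ρ → Submodule ℂ R) (Γ : Grp V R) : Set (NS 𝒜 Γ) :=
  {x | ∃ n : ℕ, 0 < n ∧ (n : ℝ) • x ∈ integral 𝒜 Γ LinearMap.id}

/-- `𝒢` is a group of linear automorphisms of `N^1(X)` which preserves the integral classes and the
cone of nef and effective classes, and which contains the pullbacks by all automorphisms of `X` of the
form `(f, id)` which map `Δ` to itself. The image of `Aut(X, Δ)` has these properties, also if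
`Aut(X, Δ)` is defined as the group of the automorphisms which map the support of `Δ` to itself. -/
structure IsAutGroup {V R : Type*} [NormedAddCommGroup V] [NormedSpace ℂ V] [CommRing R]
    [Algebra ℂ R] {ρ : ℕ} {𝒜 : Cl ρ → Submodule ℂ R} (u : Cl ρ) {Γ : Grp V R}
    {ι : Type*} [Fintype ι] (Δ : EffDiv 𝒜 Γ ι) (𝒢 : LinGrp (NS 𝒜 Γ)) : Prop where
  int : Preserves 𝒢 (integral 𝒜 Γ LinearMap.id)
  nef_eff : Preserves 𝒢 (nefEff 𝒜 Γ u)
  aff : ∀ f : V ≃ᵃ[ℂ] V, Normalizes Γ f → Δ.Fixed f → ∀ g, IsPullback f g → g ∈ 𝒢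

/-- Let `F` be a variety whose nef cone is spanned by the semiample classes `w i`, with ample class
`u`. Let `X = (V × F) / Γ` be a projective quotient and `Δ` an effective divisor with real
coefficients on `X` such that `K_X + Δ` is numerically trivial. There is a finite set `S` of integral
classes such that the cone spanned by `S` is contained in `Nef^e(X)` and is a fundamental domain for
the action of `𝒢` on `Nef^e(X)`. Moreover `Nef^e(X)` is the convex hull of the rational nef classes,
and its faces form finitely many orbits under `𝒢`. -/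
theorem result {V R : Type*} [NormedAddCommGroup V] [NormedSpace ℂ V] [FiniteDimensional ℂ V]
    [CommRing R] [IsDomain R] [Algebra ℂ R] {ρ n : ℕ}
    (𝒜 : Cl ρ → Submodule ℂ R) [GradedAlgebra 𝒜] (w : Fin n → Cl ρ) (u : Cl ρ)
    (hF : IsNefPolyhedral 𝒜 w u) (Γ : Grp V R) (hX : IsQuotient 𝒜 u Γ)
    (hproj : ∃ (L : Sheaf 𝒜 Γ) (H : V → V → ℂ), L.IsChern H ∧ IsPositiveForm H)
    {ι : Type*} [Fintype ι] (Δ : EffDiv 𝒜 Γ ι)
    (hΔ : NumTrivial Δ (LinearMap.id : V →ₗ[ℂ] V))
    (𝒢 : LinGrp (NS 𝒜 Γ)) (h𝒢 : IsAutGroup u Δ 𝒢) :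
    (∃ S : Finset (NS 𝒜 Γ), ↑S ⊆ integral 𝒜 Γ LinearMap.id ∧ cone S ⊆ nefEff 𝒜 Γ u ∧
      IsFundDomain 𝒢 (nefEff 𝒜 Γ u) (cone S)) ∧
    nefEff 𝒜 Γ u = convexHull ℝ (nef 𝒜 Γ u ∩ rational 𝒜 Γ) ∧
    ∃ 𝓕 : Set (Set (NS 𝒜 Γ)), 𝓕.Finite ∧ (∀ Φ ∈ 𝓕, IsFace Φ (nefEff 𝒜 Γ u)) ∧
      ∀ Φ, IsFace Φ (nefEff 𝒜 Γ u) → ∃ g ∈ 𝒢, ∃ Φ' ∈ 𝓕, Φ = g '' Φ' := by
  obtain ⟨H₀, Rl⟩ := rel_id hX hproj
  obtain ⟨S, h1, h2, h3⟩ := core hF.base hX hF.fam Rl (good_nef hF hX) Δ hΔ 𝒢 h𝒢.int h𝒢.nef_eff
    (fun f hf _ hf3 g hg => h𝒢.aff f hf hf3 g hg)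
  exact ⟨⟨S, h1, h2, h3⟩, plus hF.base hX hF.fam Rl (good_nef hF hX),
    faces hF.base hX hF.fam Rl (good_nef hF hX) 𝒢 h𝒢.nef_eff h2 h3⟩

end Pool.Agent.Results.MP_9f99c5_ag.ProductPairs
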