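import Pool.Agent.X324.CG.Norm

set_option autoImplicit false

/-!
# The nef cone conjecture for klt Calabi–Yau pairs: reduction to the factors without 1-forms

`A = V / Λ` is an abelian variety and `F = ∏ F i` a product of normal projective `ℚ`-factorial varieties
with free class groups. Let `X = (A × F) / G`, where a finite group `G` acts on both factors; the action
may have fixed points and fixed divisors. Let `Δ` be an effective divisor on `X` with real coefficients
such that `K_X + Δ` is numerically trivial. (Only the curves of `X` which come from curves `C × {point}`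
in `A × F` are needed for this hypothesis.) Let `𝒮` be a group of automorphisms of `F`, which contains
those given by `G`, such that the components of the pullback of `Δ` to `A × F` are preserved by a subgroup
of finite index of `𝒮`; for instance the automorphisms of a pair `(F, Δ_F)` such that the pullback of `Δ`
is `A × Δ_F`. The theorem says: if the cone conjecture holds for `𝒮` and the varieties `F i`, and only
finitely many elements of `𝒮` act trivially on `Cl(F)`, then the cone conjecture holds for `(X, Δ)`: the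
cone `Nef^e(X)` of nef and effective classes has a rational polyhedral fundamental domain for the action
of `Aut(X, Δ)`; it is the convex hull `Nef^+(X)` of the rational nef classes; and its faces form finitely
many orbits.

The theorem contains the unconditional case where the nef cones of the `F i` are spanned by finitely many
semiample classes: then one takes for `𝒮` the finite group of the automorphisms given by `G`.

The proof: `N^1(X)` is the product of a space of hermitian forms on `V` and of the space of the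
`G`-invariant classes of `F`. The first factor is treated by reduction theory; units of finite index give
automorphisms of `X` which move points only in directions parallel to all mirrors, in which the Chern
forms of the components of `Δ` vanish. For the second factor, a Dirichlet domain for `𝒮` acting on
`Nef^e(F)` is constructed; only finitely many elements of the group fix an interior point of it,
therefore the translates of the domain which meet the interior of the cone of invariant classes form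
finitely many orbits under the elements of a subgroup of finite index of `𝒮` which commute with `G`
(modulo the torus).

`Cl`, `Semistable`, `SemiampleF`, `Induces`, `Scal`, `Elt`, `Grp`, `IsQuotient`, `Sheaf`, `EffDiv`,
`NumTrivial`, `N1`, `integral`, `effective`, `semiample`, `nefCone` and `effCone` are defined in
`Pool.Agent.X324.CF.Defs`; `IsCoxRing`, `IsProduct`, `nefF`, `effF`, `HasCover`, `FiniteKernel`, `IsAut`,
`OnFactor`, `IsPullbackX` and `FixedX` in `Pool.Agent.X324.CG.Defs`; `NormX` in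
`Pool.Agent.X324.CG.NormDefs`; `IsTorusQuotient` in
`Pool.Agent.W594.SYZ.Defs2`; `IsPositiveForm` in `Pool.Agent.W594.SYZ.TQDefs`; `LinGrp`, `Preserves`,
`IsFundDomain` in `Pool.Agent.Y167.Stm`; `cone` in `Pool.Agent.Y167.ConeDef`; `IsFace` in
`Pool.Agent.Y167.StmFace`.
-/

namespace Pool.Agent.Results.MP_9f99c5_ag.ReductionPairs

open Pool.Agent.W594.SYZ2 Pool.Agent.TH735.AQ Pool.Agent.X324.CF
open Pool.Agent.X324.CG (IsCoxRing IsProduct nefF effF HasCover FiniteKernel IsAut OnFactor
  NormX IsPullbackX FixedX)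
open Pool.Agent.Y167 (cone IsFace)
open Pool.Agent.Y167.CC (LinGrp Preserves IsFundDomain)

/-- The space `N^1(X)`. (In the absolute case the linear subspace `E` of `V` of the general
definitions is `V` itself, embedded by the identity map.) -/
abbrev NS {V R : Type*} [NormedAddCommGroup V] [NormedSpace ℂ V] [CommRing R] [Algebra ℂ R] {ρ : ℕ}
    (𝒜 : Cl ρ → Submodule ℂ R) (Γ : Grp V R) : Type _ :=
  N1 𝒜 Γ (LinearMap.id : V →ₗ[ℂ] V)

/-- The nef cone of `X`. -/
def nef {V R : Type*} [NormedAddCommGroup V] [NormedSpace ℂ V] [CommRing R] [Algebra ℂ R] {ρ : ℕ}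
    (𝒜 : Cl ρ → Submodule ℂ R) (Γ : Grp V R) (u : Cl ρ) : Set (NS 𝒜 Γ) :=
  nefCone 𝒜 Γ LinearMap.id u

/-- The cone `Nef^e(X)` of nef and effective classes. -/
def nefEff {V R : Type*} [NormedAddCommGroup V] [NormedSpace ℂ V] [CommRing R] [Algebra ℂ R] {ρ : ℕ}
    (𝒜 : Cl ρ → Submodule ℂ R) (Γ : Grp V R) (u : Cl ρ) : Set (NS 𝒜 Γ) :=
  nef 𝒜 Γ u ∩ effCone 𝒜 Γ LinearMap.id

/-- The rational classes: those which have a positive integral multiple. -/
def rational {V R : Type*} [NormedAddCommGroup V] [NormedSpace ℂ V] [CommRing R] [Algebra ℂ R]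
    {ρ : ℕ} (𝒜 : Cl ρ → Submodule ℂ R) (Γ : Grp V R) : Set (NS 𝒜 Γ) :=
  {x | ∃ n : ℕ, 0 < n ∧ (n : ℝ) • x ∈ integral 𝒜 Γ LinearMap.id}

/-- The group `𝒮` of automorphisms of `F = ∏ F i` contains those which are given by `G`; for each `i`
the cone `Nef^e(F i)` is covered by the translates of a rational polyhedral cone under the elements of
`𝒮` which act only on `F i`; only finitely many elements of `𝒮` act trivially on `Cl(F)`; and the
components of the pullback of `Δ` to `A × F` are preserved by a subgroup of finite index of `𝒮`. -/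
structure ConeConjecture {V R κ : Type*} [NormedAddCommGroup V] [NormedSpace ℂ V] [CommRing R]
    [Algebra ℂ R] {ρ : ℕ} {𝒜 : Cl ρ → Submodule ℂ R} (u : Cl ρ) {Γ : Grp V R} (c : Fin ρ → κ)
    {ι : Type*} (Δ : EffDiv 𝒜 Γ ι) (𝒮 : Subgroup (R ≃ₐ[ℂ] R)) : Prop where
  aut : ∀ φ ∈ 𝒮, IsAut 𝒜 u φ
  gal : ∀ γ ∈ Γ, γ.2 ∈ 𝒮
  cover : ∀ i, HasCover 𝒜 (nefF 𝒜 u c i ∩ effF 𝒜 c i) {φ | φ ∈ 𝒮 ∧ OnFactor 𝒜 c i φ}
  kernel : FiniteKernel 𝒜 {φ | φ ∈ 𝒮}
  comp : ∃ T : Set (R ≃ₐ[ℂ] R), T.Finite ∧ ∀ φ ∈ 𝒮, ∃ h ∈ T, FixedX Δ (1, h⁻¹ * φ)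

/-- `𝒢` is a group of linear automorphisms of `N^1(X)` which preserves the integral classes and the
cone of nef and effective classes, and which contains the pullbacks by all automorphisms of `X` induced
by pairs `(f, φ)` of an affine transformation of `V` and an automorphism of `F` in `𝒮` which map the
components of `Δ` to themselves. The image of `Aut(X, Δ)` has these properties, also if `Aut(X, Δ)` is
defined as the group of the automorphisms which map the support of `Δ` to itself. -/
structure IsAutGroup {V R : Type*} [NormedAddCommGroup V] [NormedSpace ℂ V] [CommRing R]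
    [Algebra ℂ R] {ρ : ℕ} {𝒜 : Cl ρ → Submodule ℂ R} (u : Cl ρ) {Γ : Grp V R}
    {ι : Type*} (Δ : EffDiv 𝒜 Γ ι) (𝒮 : Subgroup (R ≃ₐ[ℂ] R)) (𝒢 : LinGrp (NS 𝒜 Γ)) : Prop where
  int : Preserves 𝒢 (integral 𝒜 Γ LinearMap.id)
  nef_eff : Preserves 𝒢 (nefEff 𝒜 Γ u)
  aut : ∀ a : Elt V R, NormX 𝒜 Γ a → a.2 ∈ 𝒮 → FixedX Δ a → ∀ g, IsPullbackX a g → g ∈ 𝒢

/-- Let `F` be the product of varieties `F i`, `i ∈ κ`. Let `X = (V × F) / Γ` be a projective quotient
and `Δ` an effective divisor with real coefficients on `X` such that `K_X + Δ` is numerically trivial,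
and let `𝒮` be a group of automorphisms of `F` for which the cone conjecture holds. There is a finite set
`S` of integral classes such that the cone spanned by `S` is contained in `Nef^e(X)` and is a fundamental
domain for the action of `𝒢` on `Nef^e(X)`. Moreover `Nef^e(X)` is the convex hull of the rational nef
classes, and its faces form finitely many orbits under `𝒢`. -/
theorem result {V R κ : Type*} [NormedAddCommGroup V] [NormedSpace ℂ V] [FiniteDimensional ℂ V]
    [CommRing R] [IsDomain R] [Algebra ℂ R] [DecidableEq κ] [Fintype κ] {ρ : ℕ}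
    (𝒜 : Cl ρ → Submodule ℂ R) [GradedAlgebra 𝒜] (u : Cl ρ) (hF : IsCoxRing 𝒜 u)
    (c : Fin ρ → κ) (hprod : IsProduct 𝒜 c) (Γ : Grp V R) (hX : IsQuotient 𝒜 u Γ)
    (hproj : ∃ (L : Sheaf 𝒜 Γ) (H : V → V → ℂ), L.IsChern H ∧ IsPositiveForm H)
    {ι : Type*} [Fintype ι] (Δ : EffDiv 𝒜 Γ ι)
    (hΔ : NumTrivial Δ (LinearMap.id : V →ₗ[ℂ] V))
    (𝒮 : Subgroup (R ≃ₐ[ℂ] R)) (h𝒮 : ConeConjecture u c Δ 𝒮)
    (𝒢 : LinGrp (NS 𝒜 Γ)) (h𝒢 : IsAutGroup u Δ 𝒮 𝒢) :
    (∃ S : Finset (NS 𝒜 Γ), ↑S ⊆ integral 𝒜 Γ LinearMap.id ∧ cone S ⊆ nefEff 𝒜 Γ u ∧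
      IsFundDomain 𝒢 (nefEff 𝒜 Γ u) (cone S)) ∧
    nefEff 𝒜 Γ u = convexHull ℝ (nef 𝒜 Γ u ∩ rational 𝒜 Γ) ∧
    ∃ 𝓕 : Set (Set (NS 𝒜 Γ)), 𝓕.Finite ∧ (∀ Φ ∈ 𝓕, IsFace Φ (nefEff 𝒜 Γ u)) ∧
      ∀ Φ, IsFace Φ (nefEff 𝒜 Γ u) → ∃ g ∈ 𝒢, ∃ Φ' ∈ 𝓕, Φ = g '' Φ' := by
  obtain ⟨H₀, Rl⟩ := rel_id hX hproj
  obtain ⟨d, D, S₀, hS₀, hcov⟩ := Pool.Agent.X324.CG.cover_nef (𝒮 := 𝒮) hF hprod h𝒮.aut h𝒮.cover
  obtain ⟨T, hT, hfi⟩ := h𝒮.comp
  exact Pool.Agent.X324.CG.main4 D hX (by rintro _ ⟨γ, hγ, rfl⟩; exact h𝒮.gal γ hγ)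
    (𝒮₁ := Pool.Agent.X324.CG.fixGrp Δ) hT hfi hS₀ hcov h𝒮.kernel
    Rl (hF.good_nef hX D.base) (FixedX Δ)
    (fun m g hg f hf => Pool.Agent.X324.CG.fixedX_aff (fixed_of_good hX Rl Δ hΔ hg hf))
    (fun _ _ h => h)
    𝒢 h𝒢.int h𝒢.nef_eff (fun a ha ha2 _ hfx g hg => h𝒢.aut a (ha.norm (h𝒮.aut _ ha2).1) ha2 hfx g hg)

end Pool.Agent.Results.MP_9f99c5_ag.ReductionPairs
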